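import Pool.Agent.H61Eq.Place
import Pool.Agent.H61Eq.Corr

/-!
# Semisimplicity of Frobenius on `H²` of surfaces with many correspondences

Let `X` be a smooth projective surface over the field with `q = p ^ a` elements and let `T j`, `j ∈ J`,
be commuting semisimple correspondences of `X` defined over this field (or linear combinations of
correspondences: Hecke operators, elements of the group algebra of a finite group of automorphisms,
...). They decompose `V = H²(X̄, Q̄_ℓ)` into the parts `V_χ`. An eigenvalue of the Frobenius `F` is a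
Tate eigenvalue if it is `q` times a root of unity.

The multiplicity of a non-Tate eigenvalue on `V` can be arbitrarily large, but the multiplicity on each
single part `V_χ` is bounded by the `p`-adic Newton polygons of `V_χ`, hence by the number of the
holomorphic two-forms in this part; and so are the sizes of the Jordan blocks of `F`. If the
correspondences separate the classes in `H²(X, 𝓞)`, and `X` is ordinary or `q = p` and `p` is
unramified in the fields of the eigenvalues, `F` is semisimple outside of the Tate eigenvalues.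
The case without correspondences is the case that `J` is empty.
-/

set_option autoImplicit false

open Polynomial Module W534.FS H61Eq

namespace Pool.Agent.Results.MP_1fe969_ag.CorrespondencesAndSlopes

variable {p a : ℕ} {K V : Type*} [Field K] [AddCommGroup V] [Module K V] [Module.Finite K V]

/-- `P`, a polynomial over the subfield `k` of `K`, is the characteristic polynomial of the Frobenius
on the part `V_χ` -/
def IsFrobeniusPolynomial [CharZero K] {S : SurfaceH2 p a K V} {J : Type*} (C : Correspondences S J)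
    (χ : J → K) (k : IntermediateField ℚ K) (P : k[X]) : Prop :=
  P.Monic ∧ ∀ α : K, rootMultiplicity α (P.map (algebraMap k K)) = C.mult χ α

/-- the number of the roots of absolute value `r` of the polynomial `P` at the place `τ` above `p`:
the length of an edge of a Newton polygon -/
noncomputable def numRoots [Fact p.Prime] {k : Type*} [Field k] (τ : k →+* PadicAlgCl p) (P : k[X])
    (r : ℝ) : ℕ := by
  classical exact ((P.map τ).roots.filter fun z => ‖z‖ = r).card

/-- The parts of slope less than one of the Newton polygons of `P` at the places of `k` above `p`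
contain no lattice points besides the vertices: if `r > 1 / q`, `n ≥ 1` and `r ^ n` is the absolute
value of an element of `k`, then less than `2 n` roots have the absolute value `r`. -/
def NoLatticePoints (p a : ℕ) [Fact p.Prime] {k : Type*} [Field k] (P : k[X]) : Prop :=
  ∀ (τ : k →+* PadicAlgCl p) (r : ℝ), ((p : ℝ) ^ a)⁻¹ < r → ∀ n : ℕ, 1 ≤ n →
    (∃ x : k, x ≠ 0 ∧ ‖τ x‖ = r ^ n) → numRoots τ P r < 2 * n

/-- The Newton polygons of `P` at the places of `k` above `p` lie above the polygon whose slopes are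
`0` (`h` times) and `1`. For the decomposition under a finite abelian group of automorphisms of
order prime to `p` (and torsion free crystalline cohomology) the polynomial of `V_χ` has this
property if `h` is at least the mean of the dimensions of the parts of `H²(X, 𝓞)` belonging to the
conjugates of `χ` under the Frobenius of the ground field (Mazur, Ogus). -/
def AboveHodge (p a : ℕ) [Fact p.Prime] {k : Type*} [Field k] (P : k[X]) (h : ℕ) : Prop :=
  ∀ (τ : k →+* PadicAlgCl p) (j : ℕ), j ≤ P.natDegree →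
    ‖τ (P.coeff (P.natDegree - j))‖ ≤ (((p : ℝ) ^ a)⁻¹) ^ (j - h)

/-- the ramification indices of `k` above `p` are at most `e` -/
def Ramification (p : ℕ) [Fact p.Prime] (k : Type*) [Field k] (e : ℕ) : Prop :=
  ∀ (τ : k →+* PadicAlgCl p) (y : k), 1 < ‖τ y‖ → (p : ℝ) ≤ ‖τ y‖ ^ e

theorem bound_of_hodge [hp : Fact p.Prime] {k : Type*} [Field k] {P : k[X]} {h e m : ℕ}
    (hA : AboveHodge p a P h) (hR : Ramification p k e) (τ : k →+* PadicAlgCl p)
    {y : k} (hy : 1 < ‖τ y‖)
    (hle : ‖τ y‖ ^ m * (((p : ℝ) ^ a)⁻¹) ^ P.natDegree ≤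
      (P.map τ).gaussNorm (vp p) ((p : ℝ) ^ a)⁻¹) : m ≤ a * h * e := by
  have hp1 : (1 : ℝ) < p := by exact_mod_cast hp.out.one_lt
  have hp0 : (0 : ℝ) < p := by linarith
  set R : ℝ := ((p : ℝ) ^ a)⁻¹ with hRdef
  have hR0 : 0 < R := by positivity
  have hR1 : R ≤ 1 := by
    rw [hRdef]
    exact inv_le_one_of_one_le₀ (one_le_pow₀ hp1.le)
  have h1 : (P.map τ).gaussNorm (vp p) R * R ^ h ≤ R ^ P.natDegree := by
    obtain ⟨i, hi⟩ := exists_eq_gaussNorm (vp p) R (P.map τ)
    rw [hi, coeff_map, vp_apply]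
    by_cases hlt : P.natDegree < i
    · rw [coeff_eq_zero_of_natDegree_lt hlt, map_zero, norm_zero, zero_mul, zero_mul]
      positivity
    push Not at hlt
    have h2 := hA τ (P.natDegree - i) (Nat.sub_le _ _)
    rw [Nat.sub_sub_self hlt] at h2
    calc ‖τ (P.coeff i)‖ * R ^ i * R ^ h ≤ R ^ (P.natDegree - i - h) * R ^ i * R ^ h := by
          gcongr
      _ = R ^ (P.natDegree - i - h + i + h) := by rw [pow_add, pow_add]
      _ ≤ R ^ P.natDegree := pow_le_pow_of_le_one hR0.le hR1 (by omega)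
  have h2 : ‖τ y‖ ^ m * R ^ h ≤ 1 := by
    have h3 : ‖τ y‖ ^ m * R ^ h * R ^ P.natDegree ≤ 1 * R ^ P.natDegree := by
      calc ‖τ y‖ ^ m * R ^ h * R ^ P.natDegree = (‖τ y‖ ^ m * R ^ P.natDegree) * R ^ h := by ring
        _ ≤ (P.map τ).gaussNorm (vp p) R * R ^ h := by gcongr
        _ ≤ R ^ P.natDegree := h1
        _ = 1 * R ^ P.natDegree := (one_mul _).symm
    exact le_of_mul_le_mul_right h3 (pow_pos hR0 _)
  have h3 : ‖τ y‖ ^ m ≤ (p : ℝ) ^ (a * h) := by
    have h4 : R ^ h * (p : ℝ) ^ (a * h) = 1 := by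
      rw [hRdef, inv_pow, ← pow_mul, inv_mul_cancel₀ (by positivity)]
    calc ‖τ y‖ ^ m = ‖τ y‖ ^ m * (R ^ h * (p : ℝ) ^ (a * h)) := by rw [h4, mul_one]
      _ = (‖τ y‖ ^ m * R ^ h) * (p : ℝ) ^ (a * h) := by ring
      _ ≤ 1 * (p : ℝ) ^ (a * h) := by gcongr
      _ = (p : ℝ) ^ (a * h) := one_mul _
  have h4 : (p : ℝ) ^ m ≤ (p : ℝ) ^ (a * h * e) := by
    calc (p : ℝ) ^ m ≤ (‖τ y‖ ^ e) ^ m := pow_le_pow_left₀ hp0.le (hR τ y hy) m
      _ = (‖τ y‖ ^ m) ^ e := by rw [← pow_mul, ← pow_mul, mul_comm]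
      _ ≤ ((p : ℝ) ^ (a * h)) ^ e := pow_le_pow_left₀ (by positivity) h3 e
      _ = (p : ℝ) ^ (a * h * e) := by rw [← pow_mul]
  exact (pow_le_pow_iff_right₀ hp1).1 h4

/-- **Semisimplicity of Frobenius on `H²` of surfaces with many correspondences.** -/
theorem result [hp : Fact p.Prime] [CharZero K] [IsAlgClosed K] (S : SurfaceH2 p a K V)
    {J : Type*} (C : Correspondences S J)
    -- the characteristic polynomials of the Frobenius on the parts `V_χ`
    (k : (J → K) → IntermediateField ℚ K) [∀ χ, Algebra.IsAlgebraic ℚ (k χ)]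
    (P : ∀ χ, (k χ)[X]) (hP : ∀ χ, IsFrobeniusPolynomial C χ (k χ) (P χ)) :
    -- (1) Newton polygons and multiplicities: for every non-Tate eigenvalue `α` on `V_χ` there are a
    -- place `τ` and an edge of slope less than one, with at least `mult_χ α` segments
    (∀ χ α, ¬ IsTate p a α → 0 < C.mult χ α → ∃ (τ : k χ →+* PadicAlgCl p) (r : ℝ),
      ((p : ℝ) ^ a)⁻¹ < r ∧ ∃ n : ℕ, 1 ≤ n ∧ (∃ x : k χ, x ≠ 0 ∧ ‖τ x‖ = r ^ n) ∧
        C.mult χ α * n ≤ numRoots τ (P χ) r) ∧
    -- (2) two-forms and multiplicities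
    (∀ χ h e, AboveHodge p a (P χ) h → Ramification p (k χ) e → ∀ α, ¬ IsTate p a α →
      C.mult χ α ≤ a * h * e) ∧
    -- (3) sizes of the Jordan blocks of `F` on `V`
    (∀ g, (∀ χ, C.part χ ≠ ⊥ → ∃ h e, AboveHodge p a (P χ) h ∧ Ramification p (k χ) e ∧
        a * h * e ≤ g) → ∀ α, ¬ IsTate p a α → ∀ x ∈ S.F.maxGenEigenspace α,
      ((S.F - α • (1 : Module.End K V)) ^ g) x = 0) ∧
    -- (4) semisimplicity at the non-Tate eigenvalues, over all finite extensions; there the
    -- eigenvalues on the parts `V_χ` are simple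
    ((∀ χ, C.part χ ≠ ⊥ → NoLatticePoints p a (P χ) ∨ ∃ h e, AboveHodge p a (P χ) h ∧
        Ramification p (k χ) e ∧ a * h * e ≤ 1) →
      (∀ χ α, ¬ IsTate p a α → C.mult χ α ≤ 1) ∧
      (∀ n, 0 < n → ∀ β, ¬ IsTate p (a * n) β →
        (S.F ^ n).maxGenEigenspace β = (S.F ^ n).eigenspace β) ∧
      -- (5) semisimplicity on `V`, if on each `V_χ` there is at most one class besides those of
      -- divisors for each Tate eigenvalue (two if `V_χ` is self-dual and the eigenvalue is `± q`)
      ((∀ χ α, IsTate p a α → C.mult χ α ≤ C.rk χ α + 1 ∨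
          (C.SelfDual χ ∧ α ^ 2 = ((p : K) ^ a) ^ 2 ∧ C.mult χ α ≤ C.rk χ α + 2)) →
        ∀ n, 0 < n → ∀ β, (S.F ^ n).maxGenEigenspace β = (S.F ^ n).eigenspace β)) := by
  classical
  have hbot : ∀ χ, C.part χ = ⊥ → ∀ α, C.mult χ α = 0 := by
    intro χ h α
    unfold Correspondences.mult
    rw [h, bot_inf_eq]
    exact finrank_bot K V
  have hmain : ∀ χ α, ¬ IsTate p a α → 0 < C.mult χ α → ∃ τ : k χ →+* PadicAlgCl p,
      (∃ r : ℝ, ((p : ℝ) ^ a)⁻¹ < r ∧ ∃ n : ℕ, 1 ≤ n ∧ (∃ x : k χ, x ≠ 0 ∧ ‖τ x‖ = r ^ n) ∧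
        C.mult χ α * n ≤ numRoots τ (P χ) r) ∧
      (∃ y : k χ, 1 < ‖τ y‖ ∧
        ‖τ y‖ ^ C.mult χ α * (((p : ℝ) ^ a)⁻¹) ^ (P χ).natDegree ≤
          ((P χ).map τ).gaussNorm (vp p) ((p : ℝ) ^ a)⁻¹) := by
    intro χ α hα h0
    have he := S.eigenvalue_of_mult (α := α) (lt_of_lt_of_le h0 (C.mult_le χ α))
    have hint : IsIntegral ℤ α := integral_of_root S.monic (S.root he)
    have h := H61Eq.main (p := p) (a := a) (k χ) (hP χ).1 hint (S.notInt hp.out he hα)
    rw [(hP χ).2 α] at h
    exact h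
  have h1 : ∀ χ α, ¬ IsTate p a α → 0 < C.mult χ α → ∃ (τ : k χ →+* PadicAlgCl p) (r : ℝ),
      ((p : ℝ) ^ a)⁻¹ < r ∧ ∃ n : ℕ, 1 ≤ n ∧ (∃ x : k χ, x ≠ 0 ∧ ‖τ x‖ = r ^ n) ∧
        C.mult χ α * n ≤ numRoots τ (P χ) r := by
    intro χ α hα h0
    obtain ⟨τ, ⟨r, h⟩, -⟩ := hmain χ α hα h0
    exact ⟨τ, r, h⟩
  have h2 : ∀ χ h e, AboveHodge p a (P χ) h → Ramification p (k χ) e → ∀ α, ¬ IsTate p a α →
      C.mult χ α ≤ a * h * e := by
    intro χ h e hA hR α hα
    rcases Nat.eq_zero_or_pos (C.mult χ α) with h0 | h0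
    · rw [h0]; exact Nat.zero_le _
    obtain ⟨τ, -, y, hy, hle⟩ := hmain χ α hα h0
    exact bound_of_hodge hA hR τ hy hle
  refine ⟨h1, h2, ?_, ?_⟩
  · intro g hg α hα x hx
    apply C.kills_all _ hx
    intro χ
    by_cases hχ : C.part χ = ⊥
    · rw [hbot χ hχ]; exact Nat.zero_le _
    · obtain ⟨h, e, hA, hR, hle⟩ := hg χ hχ
      exact (h2 χ h e hA hR α hα).trans hle
  · intro hgood
    have h4 : ∀ χ α, ¬ IsTate p a α → C.mult χ α ≤ 1 := by
      intro χ α hα
      by_cases hχ : C.part χ = ⊥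
      · rw [hbot χ hχ]; exact Nat.zero_le _
      rcases hgood χ hχ with h | ⟨h, e, hA, hR, hle⟩
      · by_contra hlt
        push Not at hlt
        obtain ⟨τ, r, hr, n, hn, hx, hle⟩ := h1 χ α hα (by omega)
        have h3 := h τ r hr n hn hx
        have h5 : 2 * n ≤ C.mult χ α * n := Nat.mul_le_mul_right n hlt
        omega
      · exact (h2 χ h e hA hR α hα).trans hle
    refine ⟨h4, ?_, ?_⟩
    · intro n hn β hβ
      apply Y146.HW.maxGen_pow_eq
      intro α hα
      apply C.ss_of_mult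
      intro χ
      apply h4
      rintro ⟨m, hm, h⟩
      apply hβ
      refine ⟨m, hm, ?_⟩
      rw [← hα, ← pow_mul, mul_comm n m, pow_mul, h]
      ring
    · intro hT n hn β
      apply Y146.HW.maxGen_pow_eq
      intro α _
      by_cases hα : IsTate p a α
      swap
      · exact C.ss_of_mult fun χ => h4 χ α hα
      apply C.block
      intro χ y hy v hv e1 e2
      rcases hT χ α hα with h | ⟨hs, h2, h⟩
      · exact C.no_block_one hp.out hα h hy hv e1 e2
      · exact C.no_block_two hp.out hα h2 hs h hy hv e1 e2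

end Pool.Agent.Results.MP_1fe969_ag.CorrespondencesAndSlopes
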