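import Mathlib
import Pool.Agent.H56Z.TateD

/-!
# The generic Jordan type of Frobenius at the eigenvalue `q` in families of surfaces

Let `f : X → S` be a smooth projective family of surfaces, `S` a normal geometrically connected scheme of finite type
over a finite field of characteristic different from `ℓ`, `Γ = π₁(S)`, `N = π₁(S̄)` the geometric fundamental group, and
let `ρ` be the representation of `Γ` on `H²` of the geometric generic fibre with coefficients in `ℚ_ℓ`, twisted by
`ℚ_ℓ(1)`.  The restriction of `ρ` to `N` is semisimple (Deligne), and `Γ / N` is the absolute Galois group `Ẑ` of the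
finite field.  Let `δ : Γ → Ẑ → ℤ_ℓ ⊂ ℚ_ℓ` be the degree.  The Frobenius element `σ` of a closed point `s` has
`δ σ = deg s`, the multiplicity `poleOrder` of the eigenvalue `1` of `ρ σ` is `- ord_{s=1} ζ(X_s, s)` and `kerDim (ρ σ) j`
is the dimension of the kernel of `(Fr - q) ^ j` on `H²(X_s, ℚ_ℓ)`; for `j = 1` it is the dimension of the space of the
Tate classes.  The difference `poleOrder (ρ σ) - kerDim (ρ σ) j` is the rank of `(Fr - q) ^ j` on the generalised
eigenspace for `q`; these numbers, for all `j`, give the Jordan type of Frobenius at the eigenvalue `q`.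

Nothing is supposed about the fibres.  We show that after a finite étale covering (none, if the monodromy is connected)
the Jordan type of Frobenius at `q` is the same for all closed fibres outside a set of density zero, and that it is the
SMALLEST one: the rank of `(Fr - q) ^ j` on the generalised eigenspace for `q` is at least the generic one, `d j`, for ALL
closed fibres and all `j`.  So if Frobenius is semisimple at `q` for ONE closed fibre, for example if the Tate conjecture
is true for it, then `d 1 = 0` and Frobenius is semisimple at `q` for all closed fibres outside a set of density zero, and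
for all those with the smallest order of the pole; and if this is false for a set of positive density then the Tate
conjecture is false for ALL closed fibres.
-/

set_option autoImplicit false

namespace Pool.Agent.Results.MP_1fe969_ag.GenericJordanType

open Matrix MeasureTheory

variable {K : Type} [Field K] (C : Type) [Field C] [Algebra K C] {Γ : Type} [Group Γ] {b : ℕ}

/-- The monodromy of `ρ` is connected: every polynomial over the algebraically closed field `C` in the entries of the
matrices which vanishes on an open subgroup vanishes on the whole group. -/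
def HasConnectedMonodromy [TopologicalSpace Γ] (ρ : Γ →* Matrix (Fin b) (Fin b) K) : Prop :=
  ∀ D : Subgroup Γ, IsOpen (D : Set Γ) → ∀ P : MvPolynomial (Fin b × Fin b) C,
    (∀ x ∈ D, MvPolynomial.eval (fun q => algebraMap K C (ρ x q.1 q.2)) P = 0) →
    ∀ x, MvPolynomial.eval (fun q => algebraMap K C (ρ x q.1 q.2)) P = 0

/-- The subspace `U` of `K^b` is stable under the matrix `M`. -/
def IsStable (M : Matrix (Fin b) (Fin b) K) (U : Submodule K (Fin b → K)) : Prop := ∀ v ∈ U, M *ᵥ v ∈ U

/-- The restriction of `ρ` to the subgroup `N` is semisimple: every `N`-stable subspace has an `N`-stable complement. -/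
def IsSemisimpleOn (N : Subgroup Γ) (ρ : Γ →* Matrix (Fin b) (Fin b) K) : Prop :=
  ∀ U : Submodule K (Fin b → K), (∀ x ∈ N, IsStable (ρ x) U) →
    ∃ U' : Submodule K (Fin b → K), (∀ x ∈ N, IsStable (ρ x) U') ∧ IsCompl U U'

/-- `δ` is a degree for the subgroup `N`: a continuous homomorphism to the additive group of `K` which is zero on `N` and
`1` at an element which together with `N` generates `Γ` topologically. -/
def IsDegree [TopologicalSpace K] [TopologicalSpace Γ] (N : Subgroup Γ) (δ : Γ → K) : Prop :=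
  Continuous δ ∧ (∀ σ τ, δ (σ * τ) = δ σ + δ τ) ∧ (∀ σ ∈ N, δ σ = 0) ∧
    ∃ σ₁, δ σ₁ = 1 ∧ Dense ((N ⊔ Subgroup.zpowers σ₁ : Subgroup Γ) : Set Γ)

/-- The multiplicity of the eigenvalue `1` of `M`. -/
noncomputable def poleOrder (M : Matrix (Fin b) (Fin b) K) : ℕ := M.charpoly.rootMultiplicity 1

/-- The dimension `b - rank ((M - 1) ^ j)` of the kernel of `(M - 1) ^ j`. -/
noncomputable def kerDim (M : Matrix (Fin b) (Fin b) K) (j : ℕ) : ℕ := b - ((M - 1) ^ j).rank

/-- A closed set of Haar measure zero, stable under conjugation. -/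
def IsSmall [TopologicalSpace Γ] [IsTopologicalGroup Γ] [CompactSpace Γ] [MeasurableSpace Γ] [BorelSpace Γ]
    (Z : Set Γ) : Prop :=
  IsClosed Z ∧ Measure.haar Z = 0 ∧ ∀ x ∈ Z, ∀ τ, τ * x * τ⁻¹ ∈ Z

/-- **Theorem.** Let `K` be a topological field of characteristic zero, contained continuously in an algebraically closed
topological field `C` (for example `K = ℚ_ℓ`, `C` its algebraic closure).  Let `Γ` be a compact group, `N` a normal
subgroup, `δ` a degree, and `ρ` a continuous representation of `Γ` over `K` whose restriction to `N` is semisimple.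
There are an open normal subgroup `D` of `Γ`, equal to `Γ` if the monodromy is connected, and numbers `m` and `d j` with
the following properties.
1. For ALL `σ` in `D` and all `j` we have `m ≤ poleOrder (ρ σ)` and `m ≤ kerDim (ρ σ) j + d j`, and if `δ σ ≠ 0` then
`kerDim (ρ σ) j + d j ≤ poleOrder (ρ σ)`, that is, the rank of `(ρ σ - 1) ^ j` on the generalised eigenspace for the
eigenvalue `1` is at least `d j`.
2. For all `σ` in `D` outside a closed set of Haar measure zero, stable under conjugation, `δ σ ≠ 0`, `poleOrder (ρ σ) = m`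
and `kerDim (ρ σ) j + d j = m` for all `j`. -/
theorem result (K : Type) [Field K] [CharZero K] [TopologicalSpace K] [IsTopologicalRing K] [T1Space K]
    (C : Type) [Field C] [IsAlgClosed C] [Algebra K C] [TopologicalSpace C] [IsTopologicalRing C] [T2Space C]
    (hKC : Continuous (algebraMap K C))
    (Γ : Type) [Group Γ] [TopologicalSpace Γ] [IsTopologicalGroup Γ] [CompactSpace Γ] [MeasurableSpace Γ]
    [BorelSpace Γ] (N : Subgroup Γ) (hN : N.Normal) (δ : Γ → K) (hδ : IsDegree N δ) (b : ℕ)
    (ρ : Γ →* Matrix (Fin b) (Fin b) K) (hρ : Continuous ρ) (hss : IsSemisimpleOn N ρ) :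
    ∃ D : Subgroup Γ, D.Normal ∧ IsOpen (D : Set Γ) ∧ (HasConnectedMonodromy C ρ → D = ⊤) ∧
      ∃ (m : ℕ) (d : ℕ → ℕ),
        (∀ σ ∈ D, m ≤ poleOrder (ρ σ) ∧ ∀ j, m ≤ kerDim (ρ σ) j + d j ∧
          (δ σ ≠ 0 → kerDim (ρ σ) j + d j ≤ poleOrder (ρ σ))) ∧
        ∃ Z : Set Γ, IsSmall Z ∧ ∀ σ ∈ D, σ ∉ Z →
          δ σ ≠ 0 ∧ poleOrder (ρ σ) = m ∧ ∀ j, kerDim (ρ σ) j + d j = m := by
  obtain ⟨hδc, hδa, hδN, σ₁, hδ1, hdense⟩ := hδ
  have hgen : (N ⊔ Subgroup.zpowers σ₁).topologicalClosure = ⊤ := by
    rw [← SetLike.coe_set_eq, Subgroup.topologicalClosure_coe, Subgroup.coe_top]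
    exact hdense.closure_eq
  have hssN : Pool.Agent.H40ZL.SSimple (ρ '' (N : Set Γ)) := by
    intro U hU
    obtain ⟨U', hU', hc⟩ := hss U fun x hx v hv => hU _ ⟨x, hx, rfl⟩ v hv
    refine ⟨U', ?_, hc⟩
    rintro _ ⟨x, hx, rfl⟩ v hv
    exact hU' x hx v hv
  obtain ⟨ν, hν, hc, hall⟩ := Pool.Agent.H56Z.exists_twist ρ hρ N hssN σ₁ hgen δ hδc hδa hδN hδ1
  have heq : ∀ (M : Matrix (Fin b) (Fin b) K) (j : ℕ), kerDim M j = Pool.Agent.H40ZL.nul ((M - 1) ^ j) := by
    intro M j
    have h1 := LinearMap.finrank_range_add_finrank_ker (Matrix.toLin' ((M - 1) ^ j))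
    rw [Module.finrank_fintype_fun_eq_card, Fintype.card_fin] at h1
    have h2 : ((M - 1) ^ j).rank = Module.finrank K (LinearMap.range (Matrix.toLin' ((M - 1) ^ j))) := by
      rw [Matrix.toLin'_apply']
      rfl
    unfold kerDim Pool.Agent.H40ZL.nul
    rw [h2]
    omega
  obtain ⟨D, hD1, hD2, hD3, m, d, hD4, Z, hZ1, hZ2, hZ3, hZ4⟩ :=
    Pool.Agent.H56Z.jordan (G := C) hKC Measure.haar ρ hρ ν hν hc δ hδc hδa σ₁ hδ1 hall
  refine ⟨D, hD1, hD2, fun h => hD3 ?_, m, d, fun σ hσ => ⟨(hD4 σ hσ).1, fun j => ?_⟩, Z, ⟨hZ1, hZ2, hZ3⟩,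
    fun σ hσ hσZ => ?_⟩
  · intro D' hD' _ P hP x _
    exact h D' hD' P hP x
  · rw [heq]
    exact (hD4 σ hσ).2 j
  · obtain ⟨h1, h2, h3⟩ := hZ4 σ hσ hσZ
    refine ⟨h1, h2, fun j => ?_⟩
    rw [heq]
    exact h3 j

end Pool.Agent.Results.MP_1fe969_ag.GenericJordanType
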