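import Mathlib
import Pool.Agent.H40ZL.Pole

/-!
# Semisimplicity at the eigenvalue `q` for the fibres with the minimal order of the pole

Let `f : X → S` be a smooth projective family of surfaces, `S` a normal geometrically connected scheme of finite type over
a finite field of characteristic different from `ℓ`, `Γ = π₁(S)`, `N = π₁(S̄)` the geometric fundamental group, and let
`ρ` be the representation of `Γ` on `H²` of the geometric generic fibre, twisted by `ℚ_ℓ(1)`.  The restriction of `ρ` to
`N` is semisimple (Deligne).  The Frobenius element of a closed point `s` is mapped to the power `deg s` of the Frobenius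
element in `Γ / N = Ẑ`, so `N` and this element generate topologically an open subgroup.  For a closed point `s` with
Frobenius element `σ` the multiplicity `poleOrder` of the eigenvalue `1` of `ρ σ` is `- ord_{s=1} ζ(X_s, s)` and the
dimension `tateClasses` of the space of the invariants of `σ` is the dimension of `H²(X_s, ℚ_ℓ)^{Fr = q}`.

We show: if Frobenius is semisimple on `H²` of one closed fibre, then after a finite étale covering (none, if the
monodromy is connected) there is a number `m` such that `m ≤ dim H²(X_s, ℚ_ℓ)^{Fr = q} ≤ - ord_{s=1} ζ(X_s, s)` for ALL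
closed fibres, both numbers are `m` for all `s` outside a set of density zero, and so Frobenius is semisimple on the
generalised eigenspace for `q` for all `s` such that the order of the pole is `m`.
-/

set_option autoImplicit false

namespace Pool.Agent.Results.MP_1fe969_ag.MinimalPoleOrder

open Matrix MeasureTheory

variable {K : Type} [Field K] (C : Type) [Field C] [Algebra K C] {Γ : Type} [Group Γ] {b : ℕ}

/-- The monodromy of `ρ` is connected: every polynomial over the algebraically closed field `C` in the entries of the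
matrices which vanishes on an open subgroup vanishes on the whole group. -/
def HasConnectedMonodromy [TopologicalSpace Γ] (ρ : Γ →* Matrix (Fin b) (Fin b) K) : Prop :=
  ∀ D : Subgroup Γ, IsOpen (D : Set Γ) → ∀ P : MvPolynomial (Fin b × Fin b) C,
    (∀ x ∈ D, MvPolynomial.eval (fun q => algebraMap K C (ρ x q.1 q.2)) P = 0) →
    ∀ x, MvPolynomial.eval (fun q => algebraMap K C (ρ x q.1 q.2)) P = 0

/-- The subspace `U` of `K^b` is stable under the matrix `M`. -/
def IsStable (M : Matrix (Fin b) (Fin b) K) (U : Submodule K (Fin b → K)) : Prop := ∀ v ∈ U, M *ᵥ v ∈ U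

/-- The restriction of `ρ` to the subgroup `N` is semisimple: every `N`-stable subspace has an `N`-stable complement. -/
def IsSemisimpleOn (N : Subgroup Γ) (ρ : Γ →* Matrix (Fin b) (Fin b) K) : Prop :=
  ∀ U : Submodule K (Fin b → K), (∀ x ∈ N, IsStable (ρ x) U) →
    ∃ U' : Submodule K (Fin b → K), (∀ x ∈ N, IsStable (ρ x) U') ∧ IsCompl U U'

/-- The matrix `M` is semisimple: every `M`-stable subspace has an `M`-stable complement. -/
def IsSemisimple (M : Matrix (Fin b) (Fin b) K) : Prop :=
  ∀ U : Submodule K (Fin b → K), IsStable M U → ∃ U' : Submodule K (Fin b → K), IsStable M U' ∧ IsCompl U U'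

/-- The multiplicity of the eigenvalue `1` of `M`. -/
noncomputable def poleOrder (M : Matrix (Fin b) (Fin b) K) : ℕ := M.charpoly.rootMultiplicity 1

/-- The dimension `b - rank (M - 1)` of the space of the vectors fixed by `M`. -/
noncomputable def tateClasses (M : Matrix (Fin b) (Fin b) K) : ℕ := b - (M - 1).rank

/-- The subgroup `N` and the element `σ₀` generate topologically an open subgroup. -/
def GeneratesOpen [TopologicalSpace Γ] (N : Subgroup Γ) (σ₀ : Γ) : Prop :=
  IsOpen (_root_.closure ((N ⊔ Subgroup.zpowers σ₀ : Subgroup Γ) : Set Γ))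

/-- A closed set of Haar measure zero, stable under conjugation. -/
def IsSmall [TopologicalSpace Γ] [IsTopologicalGroup Γ] [CompactSpace Γ] [MeasurableSpace Γ] [BorelSpace Γ]
    (Z : Set Γ) : Prop :=
  IsClosed Z ∧ Measure.haar Z = 0 ∧ ∀ x ∈ Z, ∀ τ, τ * x * τ⁻¹ ∈ Z

/-- `m ≤ tateClasses (ρ σ) ≤ poleOrder (ρ σ)` for all `σ` in `D`, with two equalities outside a small set. -/
def MinimalOrder [TopologicalSpace Γ] [IsTopologicalGroup Γ] [CompactSpace Γ] [MeasurableSpace Γ] [BorelSpace Γ]
    (D : Subgroup Γ) (ρ : Γ →* Matrix (Fin b) (Fin b) K) (m : ℕ) : Prop :=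
  (∀ σ ∈ D, m ≤ tateClasses (ρ σ) ∧ tateClasses (ρ σ) ≤ poleOrder (ρ σ)) ∧
    ∃ Z : Set Γ, IsSmall Z ∧ ∀ σ ∈ D, σ ∉ Z → tateClasses (ρ σ) = m ∧ poleOrder (ρ σ) = m

theorem isSemisimple_iff (M : Matrix (Fin b) (Fin b) K) :
    IsSemisimple M ↔ Module.End.IsSemisimple (Matrix.toLin' M) := by
  rw [Module.End.isSemisimple_iff]
  have h : ∀ U : Submodule K (Fin b → K), IsStable M U ↔ U ≤ Submodule.comap (Matrix.toLin' M) U := by
    intro U
    constructor
    · intro h v hv
      have h1 := h v hv
      rwa [Submodule.mem_comap, Matrix.toLin'_apply]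
    · intro h v hv
      have h1 := h hv
      rwa [Submodule.mem_comap, Matrix.toLin'_apply] at h1
  constructor
  · intro hs U hU
    obtain ⟨U', h1, h2⟩ := hs U ((h U).2 hU)
    exact ⟨U', (h U').1 h1, h2⟩
  · intro hs U hU
    obtain ⟨U', h1, h2⟩ := hs U ((h U).1 hU)
    exact ⟨U', (h U').2 h1, h2⟩

/-- **Theorem.** Let `K` be a topological field of characteristic zero, contained continuously in an algebraically closed
topological field `C` (for example `K = ℚ_ℓ` or a finite extension, `C` its algebraic closure).  Let `Γ` be a compact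
group, `N` a normal subgroup and `ρ` a continuous representation of `Γ` over `K` whose restriction to `N` is semisimple.
Suppose that `ρ σ₀` is semisimple for one element `σ₀` which topologically generates together with `N` an open subgroup.
Then there are an open normal subgroup `D` of `Γ`, equal to `Γ` if the monodromy is connected, and a number `m` such that
`m ≤ tateClasses (ρ σ) ≤ poleOrder (ρ σ)` for all `σ` in `D`, with two equalities for all `σ` in `D` outside a closed set
of Haar measure zero, stable under conjugation.  In particular `tateClasses (ρ σ) = poleOrder (ρ σ)` for all `σ` in `D`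
such that the order of the pole is `m`, the minimum. -/
theorem result (K : Type) [Field K] [CharZero K] [TopologicalSpace K] [IsTopologicalRing K] [T1Space K]
    (C : Type) [Field C] [IsAlgClosed C] [Algebra K C] [TopologicalSpace C] [IsTopologicalRing C] [T2Space C]
    (hKC : Continuous (algebraMap K C))
    (Γ : Type) [Group Γ] [TopologicalSpace Γ] [IsTopologicalGroup Γ] [CompactSpace Γ] [MeasurableSpace Γ]
    [BorelSpace Γ] (N : Subgroup Γ) (hN : N.Normal) (b : ℕ) (ρ : Γ →* Matrix (Fin b) (Fin b) K)
    (hρ : Continuous ρ) (hss : IsSemisimpleOn N ρ) (σ₀ : Γ) (hgen : GeneratesOpen N σ₀) (hσ₀ : IsSemisimple (ρ σ₀)) :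
    ∃ D : Subgroup Γ, D.Normal ∧ IsOpen (D : Set Γ) ∧ (HasConnectedMonodromy C ρ → D = ⊤) ∧ ∃ m : ℕ,
      MinimalOrder D ρ m ∧ ∀ σ ∈ D, poleOrder (ρ σ) = m → tateClasses (ρ σ) = poleOrder (ρ σ) := by
  have hall : Pool.Agent.H40ZL.SSimple (Set.range ρ) := by
    refine Pool.Agent.H40ZL.ssimple_all ρ hρ N ?_ σ₀ ((isSemisimple_iff _).1 hσ₀) hgen
    intro U hU
    obtain ⟨U', hU', hc⟩ := hss U fun x hx v hv => hU _ ⟨x, hx, rfl⟩ v hv
    refine ⟨U', ?_, hc⟩
    rintro _ ⟨x, hx, rfl⟩ v hv
    exact hU' x hx v hv
  have heq : ∀ M : Matrix (Fin b) (Fin b) K, tateClasses M = Pool.Agent.H40ZL.nul (M - 1) := by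
    intro M
    have h1 := LinearMap.finrank_range_add_finrank_ker (Matrix.toLin' (M - 1))
    rw [Module.finrank_fintype_fun_eq_card, Fintype.card_fin] at h1
    have h2 : (M - 1).rank = Module.finrank K (LinearMap.range (Matrix.toLin' (M - 1))) := by
      rw [Matrix.toLin'_apply']
      rfl
    unfold tateClasses Pool.Agent.H40ZL.nul
    rw [h2]
    omega
  have hle : ∀ σ, tateClasses (ρ σ) ≤ poleOrder (ρ σ) := by
    intro σ
    have h1 := Pool.Agent.H40ZL.ker_le_mult (ρ σ - 1)
    rw [← Pool.Agent.H40ZL.mult1_eq] at h1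
    rw [heq]
    exact h1
  obtain ⟨D, hD1, hD2, hD3, m, hm, Z, hZ1, hZ2, hZ3, hZ4⟩ :=
    Pool.Agent.H40ZL.pole (G := C) hKC Measure.haar ρ hρ hall
  have hm' : ∀ σ ∈ D, m ≤ tateClasses (ρ σ) := by
    intro σ hσ
    rw [heq]
    exact hm σ hσ
  refine ⟨D, hD1, hD2, fun h => hD3 ?_, m, ⟨fun σ hσ => ⟨hm' σ hσ, hle σ⟩, Z, ⟨hZ1, hZ2, hZ3⟩,
    fun σ hσ hσZ => ?_⟩, fun σ hσ h => ?_⟩
  · intro D' hD' _ P hP x _
    exact h D' hD' P hP x
  · have h1 : poleOrder (ρ σ) = m := hZ4 σ hσ hσZ
    exact ⟨le_antisymm ((hle σ).trans h1.le) (hm' σ hσ), h1⟩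
  · exact le_antisymm (hle σ) (h.le.trans (hm' σ hσ))

end Pool.Agent.Results.MP_1fe969_ag.MinimalPoleOrder
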