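import Mathlib
import Pool.Agent.H56Z.Rep
import Pool.Agent.H56Z.All

/-!
# A zero-one law for the semisimplicity of Frobenius in families of surfaces

Let `f : X → S` be a smooth projective family of surfaces, `S` a normal geometrically connected scheme of finite type
over a finite field of characteristic different from `ℓ`, `Γ = π₁(S)`, `N = π₁(S̄)` the geometric fundamental group, and
let `ρ` be the representation of `Γ` on `H²` of the geometric generic fibre with coefficients in `ℚ_ℓ`.  The restriction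
of `ρ` to `N` is semisimple (Deligne), and `Γ / N` is the absolute Galois group `Ẑ` of the finite field.  Let
`δ : Γ → Ẑ → ℤ_ℓ ⊂ ℚ_ℓ` be the degree.  The Frobenius element `σ` of a closed point `s` has `δ σ = deg s`.

The starting point of the known results on the question is a fibre with semisimple Frobenius.  Here nothing is supposed
about the fibres.  There is ONE nilpotent endomorphism `ν` of `H²`, commuting with `Γ`, such that `(deg s) ν` is the
logarithm of the unipotent part of Frobenius for every closed point `s` at which the number of the distinct eigenvalues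
of Frobenius is maximal, and this is true for all closed points outside a set of density zero (after a finite étale
covering, if the monodromy is not connected).  For ALL closed points the minimal polynomial of `Frobenius * exp (-(deg s)
ν)` has degree at most the maximal number of distinct eigenvalues.  If Frobenius is semisimple at one closed point then
`ν = 0`.  So Frobenius is semisimple on `H²` either for NO closed fibre or for all closed fibres outside a set of density
zero, and in the second case the degree of the minimal polynomial of Frobenius is at most the maximal number of distinct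
eigenvalues for ALL closed fibres.  The second case holds if `H²` has no repeated irreducible constituents as a
representation of `N`.
-/

set_option autoImplicit false

namespace Pool.Agent.Results.MP_1fe969_ag.ZeroOneLaw

open Matrix MeasureTheory

variable {K : Type} [Field K] (C : Type) [Field C] [Algebra K C] {Γ : Type} [Group Γ] {b : ℕ}

/-- The monodromy of `ρ` is connected: every polynomial over the algebraically closed field `C` in the entries of the
matrices which vanishes on an open subgroup vanishes on the whole group. -/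
def HasConnectedMonodromy [TopologicalSpace Γ] (ρ : Γ →* Matrix (Fin b) (Fin b) K) : Prop :=
  ∀ D : Subgroup Γ, IsOpen (D : Set Γ) → ∀ P : MvPolynomial (Fin b × Fin b) C,
    (∀ x ∈ D, MvPolynomial.eval (fun q => algebraMap K C (ρ x q.1 q.2)) P = 0) →
    ∀ x, MvPolynomial.eval (fun q => algebraMap K C (ρ x q.1 q.2)) P = 0

/-- The subspace `U` of `K^b` is stable under the matrix `M`. -/
def IsStable (M : Matrix (Fin b) (Fin b) K) (U : Submodule K (Fin b → K)) : Prop := ∀ v ∈ U, M *ᵥ v ∈ U

/-- The restriction of `ρ` to the subgroup `N` is semisimple: every `N`-stable subspace has an `N`-stable complement. -/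
def IsSemisimpleOn (N : Subgroup Γ) (ρ : Γ →* Matrix (Fin b) (Fin b) K) : Prop :=
  ∀ U : Submodule K (Fin b → K), (∀ x ∈ N, IsStable (ρ x) U) →
    ∃ U' : Submodule K (Fin b → K), (∀ x ∈ N, IsStable (ρ x) U') ∧ IsCompl U U'

/-- The matrix `M` is semisimple: every `M`-stable subspace has an `M`-stable complement. -/
def IsSemisimple (M : Matrix (Fin b) (Fin b) K) : Prop :=
  ∀ U : Submodule K (Fin b → K), IsStable M U → ∃ U' : Submodule K (Fin b → K), IsStable M U' ∧ IsCompl U U'

open scoped Classical in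
/-- The number of the distinct eigenvalues of `M` in the algebraically closed field `C`. -/
noncomputable def distinctEigenvalues (M : Matrix (Fin b) (Fin b) K) : ℕ :=
  (M.charpoly.map (algebraMap K C)).roots.toFinset.card

/-- `σ` is an element of `D` such that the number of the distinct eigenvalues of `ρ σ` is maximal in `D`. -/
def IsMaximalIn (D : Subgroup Γ) (ρ : Γ →* Matrix (Fin b) (Fin b) K) (σ : Γ) : Prop :=
  σ ∈ D ∧ ∀ τ ∈ D, distinctEigenvalues C (ρ τ) ≤ distinctEigenvalues C (ρ σ)

/-- `δ` is a degree for the subgroup `N`: a continuous homomorphism to the additive group of `K` which is zero on `N` and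
`1` at an element which together with `N` generates `Γ` topologically. -/
def IsDegree [TopologicalSpace K] [TopologicalSpace Γ] (N : Subgroup Γ) (δ : Γ → K) : Prop :=
  Continuous δ ∧ (∀ σ τ, δ (σ * τ) = δ σ + δ τ) ∧ (∀ σ ∈ N, δ σ = 0) ∧
    ∃ σ₁, δ σ₁ = 1 ∧ Dense ((N ⊔ Subgroup.zpowers σ₁ : Subgroup Γ) : Set Γ)

/-- A closed set of Haar measure zero, stable under conjugation. -/
def IsSmall [TopologicalSpace Γ] [IsTopologicalGroup Γ] [CompactSpace Γ] [MeasurableSpace Γ] [BorelSpace Γ]
    (Z : Set Γ) : Prop :=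
  IsClosed Z ∧ Measure.haar Z = 0 ∧ ∀ x ∈ Z, ∀ τ, τ * x * τ⁻¹ ∈ Z

/-- There is an open normal subgroup `D`, equal to `Γ` if the monodromy is connected, such that for all `σ` in `D` outside
a closed conjugation-stable set of Haar measure zero the number of the distinct eigenvalues of `ρ σ` is maximal in `D` and
`P σ` is true. -/
def AlmostAll [TopologicalSpace Γ] [IsTopologicalGroup Γ] [CompactSpace Γ] [MeasurableSpace Γ]
    [BorelSpace Γ] (ρ : Γ →* Matrix (Fin b) (Fin b) K) (P : Γ → Prop) : Prop :=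
  ∃ D : Subgroup Γ, D.Normal ∧ IsOpen (D : Set Γ) ∧ (HasConnectedMonodromy C ρ → D = ⊤) ∧
    ∃ Z : Set Γ, IsSmall Z ∧ ∀ σ ∈ D, σ ∉ Z → IsMaximalIn C D ρ σ ∧ P σ

/-- `L` is the logarithm of the unipotent part of the matrix `M`: it is nilpotent, commutes with `M`, and
`M * exp (-L)` is semisimple. -/
def IsLogOfUnipotentPart [CharZero K] (L M : Matrix (Fin b) (Fin b) K) : Prop :=
  IsNilpotent L ∧ L * M = M * L ∧ IsSemisimple (M * IsNilpotent.exp (-L))

theorem isSemisimple_iff (M : Matrix (Fin b) (Fin b) K) :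
    IsSemisimple M ↔ Module.End.IsSemisimple (Matrix.toLin' M) := by
  rw [Module.End.isSemisimple_iff]
  have h : ∀ U : Submodule K (Fin b → K), IsStable M U ↔ U ≤ Submodule.comap (Matrix.toLin' M) U := by
    intro U
    constructor
    · intro h v hv
      have h1 := h v hv
      rwa [Submodule.mem_comap, Matrix.toLin'_apply]
    · intro h v hv
      have h1 := h hv
      rwa [Submodule.mem_comap, Matrix.toLin'_apply] at h1
  constructor
  · intro hs U hU
    obtain ⟨U', h1, h2⟩ := hs U ((h U).2 hU)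
    exact ⟨U', (h U').1 h1, h2⟩
  · intro hs U hU
    obtain ⟨U', h1, h2⟩ := hs U ((h U).1 hU)
    exact ⟨U', (h U').2 h1, h2⟩

theorem exp_zero_mul (M : Matrix (Fin b) (Fin b) K) [CharZero K] (c : K) :
    M * IsNilpotent.exp (-(c • (0 : Matrix (Fin b) (Fin b) K))) = M := by
  rw [smul_zero, neg_zero, IsNilpotent.exp_zero, mul_one]

/-- **Theorem.** Let `K` be a topological field of characteristic zero, contained continuously in an algebraically closed
topological field `C` (for example `K = ℚ_ℓ`, `C` its algebraic closure).  Let `Γ` be a compact group, `N` a normal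
subgroup, `δ` a degree, and `ρ` a continuous representation of `Γ` over `K` whose restriction to `N` is semisimple.
There is a nilpotent `ν` commuting with `ρ Γ` with the following properties.
1. For every normal subgroup `D` of `Γ` (for example `D = Γ`) and all `σ` in `D` such that the number of distinct
eigenvalues of `ρ σ` is maximal among the elements of `D`, `(δ σ) ν` is the logarithm of the unipotent part of `ρ σ`.
2. There is an open normal subgroup `D`, equal to `Γ` if the monodromy is connected, such that this applies to all `σ` in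
`D` outside a closed set of Haar measure zero, stable under conjugation.
3. For every normal subgroup `D` and ALL `σ` in `D` the minimal polynomial of `ρ σ exp (-(δ σ) ν)` has degree at most
the maximal number of distinct eigenvalues of the elements of `D`.
4. If `ρ σ₀` is semisimple for one `σ₀` with `δ σ₀ ≠ 0`, or if no nonzero nilpotent matrix commutes with `ρ N`, then
`ν = 0`.
Consequently either (5) `ρ σ` is semisimple for NO `σ` with `δ σ ≠ 0`, or (6) `ρ σ` is semisimple for all `σ` in `D`
outside a set as in 2, and if the number of distinct eigenvalues is at most `m` on a normal subgroup, the minimal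
polynomials of all its elements have degree at most `m`. -/
theorem result (K : Type) [Field K] [CharZero K] [TopologicalSpace K] [IsTopologicalRing K] [T1Space K]
    (C : Type) [Field C] [IsAlgClosed C] [Algebra K C] [TopologicalSpace C] [IsTopologicalRing C] [T2Space C]
    (hKC : Continuous (algebraMap K C))
    (Γ : Type) [Group Γ] [TopologicalSpace Γ] [IsTopologicalGroup Γ] [CompactSpace Γ] [MeasurableSpace Γ]
    [BorelSpace Γ] (N : Subgroup Γ) (hN : N.Normal) (δ : Γ → K) (hδ : IsDegree N δ) (b : ℕ)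
    (ρ : Γ →* Matrix (Fin b) (Fin b) K) (hρ : Continuous ρ) (hss : IsSemisimpleOn N ρ) :
    (∃ ν : Matrix (Fin b) (Fin b) K, IsNilpotent ν ∧ (∀ σ, ρ σ * ν = ν * ρ σ) ∧
      (∀ D : Subgroup Γ, D.Normal → ∀ σ, IsMaximalIn C D ρ σ → IsLogOfUnipotentPart (δ σ • ν) (ρ σ)) ∧
      AlmostAll C ρ (fun σ => IsLogOfUnipotentPart (δ σ • ν) (ρ σ)) ∧
      (∀ (D : Subgroup Γ) (m : ℕ), D.Normal → (∀ τ ∈ D, distinctEigenvalues C (ρ τ) ≤ m) →
        ∀ σ ∈ D, (minpoly K (ρ σ * IsNilpotent.exp (-(δ σ • ν)))).natDegree ≤ m) ∧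
      ((∃ σ₀, δ σ₀ ≠ 0 ∧ IsSemisimple (ρ σ₀)) ∨
        (∀ M : Matrix (Fin b) (Fin b) K, IsNilpotent M → (∀ x ∈ N, ρ x * M = M * ρ x) → M = 0) → ν = 0)) ∧
    ((∀ σ, δ σ ≠ 0 → ¬ IsSemisimple (ρ σ)) ∨
      (AlmostAll C ρ (fun σ => IsSemisimple (ρ σ)) ∧
        ∀ (D : Subgroup Γ) (m : ℕ), D.Normal → (∀ τ ∈ D, distinctEigenvalues C (ρ τ) ≤ m) →
          ∀ σ ∈ D, (minpoly K (ρ σ)).natDegree ≤ m)) := by
  obtain ⟨hδc, hδa, hδN, σ₁, hδ1, hdense⟩ := hδ
  have hgen : (N ⊔ Subgroup.zpowers σ₁).topologicalClosure = ⊤ := by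
    rw [← SetLike.coe_set_eq, Subgroup.topologicalClosure_coe, Subgroup.coe_top]
    exact hdense.closure_eq
  have hssN : Pool.Agent.H40ZL.SSimple (ρ '' (N : Set Γ)) := by
    intro U hU
    obtain ⟨U', hU', hc⟩ := hss U fun x hx v hv => hU _ ⟨x, hx, rfl⟩ v hv
    refine ⟨U', ?_, hc⟩
    rintro _ ⟨x, hx, rfl⟩ v hv
    exact hU' x hx v hv
  obtain ⟨ν, hν, hc, hall⟩ := Pool.Agent.H56Z.exists_twist ρ hρ N hssN σ₁ hgen δ hδc hδa hδN hδ1
  set ρ' := Pool.Agent.H56Z.twist ρ δ hδa ν hν hc with hρ'
  have hap : ∀ σ, ρ' σ = ρ σ * IsNilpotent.exp (-(δ σ • ν)) := fun σ => rfl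
  have hnd : ∀ σ, Pool.Agent.H40ZL.nd C (ρ' σ) = Pool.Agent.H40ZL.nd C (ρ σ) := fun σ =>
    Pool.Agent.H56Z.twist_nd ρ δ hδa ν hν hc σ
  have hlog : ∀ σ, Module.End.IsSemisimple (Matrix.toLin' (ρ' σ)) → IsLogOfUnipotentPart (δ σ • ν) (ρ σ) := by
    intro σ h
    refine ⟨Pool.Agent.H56Z.smul_nilp hν _, ?_, ?_⟩
    · rw [smul_mul_assoc, mul_smul_comm, (hc σ).eq]
    · rw [isSemisimple_iff, ← hap]
      exact h
  have h1 : ∀ D : Subgroup Γ, D.Normal → ∀ σ, IsMaximalIn C D ρ σ →
      Module.End.IsSemisimple (Matrix.toLin' (ρ' σ)) := by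
    rintro D hD σ ⟨hσ, hmax⟩
    refine Pool.Agent.H40ZL.semisimple_of_max (G := C) ρ' hall D (hDn := hD) σ hσ fun x hx => ?_
    rw [hnd, hnd]
    exact hmax x hx
  obtain ⟨D₀, hD1, hD2, hD3, Z, hZ1, hZ2, hZ3, hZ4⟩ :=
    Pool.Agent.H40ZL.exists_generic (G := C) hKC Measure.haar ρ hρ
  have hD3' : HasConnectedMonodromy C ρ → D₀ = ⊤ := by
    intro h
    refine hD3 ?_
    intro D' hD' _ P hP x _
    exact h D' hD' P hP x
  have hmin : ∀ (D : Subgroup Γ) (m : ℕ), D.Normal → (∀ τ ∈ D, distinctEigenvalues C (ρ τ) ≤ m) →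
      ∀ σ ∈ D, (minpoly K (ρ' σ)).natDegree ≤ m := by
    intro D m hD hm σ hσ
    refine Pool.Agent.H56Z.minpoly_le (G := C) ρ' hall D (hDn := hD) m (fun x hx => ?_) σ hσ
    rw [hnd]
    exact hm x hx
  have hz1 : (∃ σ₀, δ σ₀ ≠ 0 ∧ IsSemisimple (ρ σ₀)) → ν = 0 := by
    rintro ⟨σ₀, h0, hs⟩
    exact Pool.Agent.H56Z.corr_zero ρ δ hδa ν hν hc hall σ₀ h0 ((isSemisimple_iff _).1 hs)
  refine ⟨⟨ν, hν, fun σ => (hc σ).eq, fun D hD σ hσ => hlog σ (h1 D hD σ hσ), ⟨D₀, hD1, hD2, hD3', Z,
    ⟨hZ1, hZ2, hZ3⟩, fun σ hσ hσZ => ⟨⟨hσ, hZ4 σ hσ hσZ⟩, hlog σ (h1 D₀ hD1 σ ⟨hσ, hZ4 σ hσ hσZ⟩)⟩⟩, hmin, ?_⟩, ?_⟩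
  · rintro (h | h)
    · exact hz1 h
    · exact h ν hν fun x _ => (hc x).eq
  · by_cases h : ∃ σ₀, δ σ₀ ≠ 0 ∧ IsSemisimple (ρ σ₀)
    · right
      have hν0 : ν = 0 := hz1 h
      have heq : ∀ σ, ρ' σ = ρ σ := by
        intro σ
        rw [hap, hν0, exp_zero_mul]
      refine ⟨⟨D₀, hD1, hD2, hD3', Z, ⟨hZ1, hZ2, hZ3⟩, fun σ hσ hσZ => ⟨⟨hσ, hZ4 σ hσ hσZ⟩, ?_⟩⟩, ?_⟩
      · have h2 := h1 D₀ hD1 σ ⟨hσ, hZ4 σ hσ hσZ⟩
        rw [heq] at h2
        exact (isSemisimple_iff _).2 h2
      · intro D m hD hm σ hσ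
        have h2 := hmin D m hD hm σ hσ
        rwa [heq] at h2
    · left
      intro σ hσ hs
      exact h ⟨σ, hσ, hs⟩

end Pool.Agent.Results.MP_1fe969_ag.ZeroOneLaw
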